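import Pool.Agent.R571.LFS.Free

/-!
# MP_e86906_an, Q1: the spectrum of compact Lipschitz operators

For every complete pointed metric space `(M, o)` (bounded or not) and every Lipschitz map
`f : M → M` with `f o = o` for which the operator `f̂` on the Lipschitz-free space is compact, the
set `A(f)` of the orders of the periodic points is finite and the nonzero spectrum of `f̂` is the
union of the sets of `n`-th roots of unity, `n ∈ A(f)`.
-/

namespace Pool.Agent.Results.MP_e86906_an.SpectrumFormula

open Pool.Agent.R571.LFS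

universe u

/-- The set `A(f)`: the orders `n ≥ 1` of the periodic points `x ≠ o` of `f`. -/
def periodicOrders {M : Type u} (f : M → M) (o : M) : Set ℕ :=
  {n | 1 ≤ n ∧ ∃ x, x ≠ o ∧ f^[n] x = x ∧ ∀ k, 1 ≤ k → k < n → f^[k] x ≠ x}

theorem result (M : Type u) [MetricSpace M] [CompleteSpace M] (o : M) (f : M → M) (L : NNReal)
    (hf : LipschitzWith L f) (h0 : f o = o) :
    (∃! T : Free M o →L[ℂ] Free M o, ∀ x, T (delta M o x) = delta M o (f x)) ∧
    ∀ T : Free M o →L[ℂ] Free M o, (∀ x, T (delta M o x) = delta M o (f x)) →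
      IsCompactOperator T →
        (periodicOrders f o).Finite ∧
        spectrum ℂ T \ {0} = ⋃ n ∈ periodicOrders f o, {z : ℂ | z ^ n = 1} := by
  have H : IsLF o (delta M o) := isLF
  refine ⟨?_, fun T hT hc => H.main hc hT⟩
  obtain ⟨T, hT, -⟩ := H.lift (fun x => delta M o (f x)) L L.2 (by rw [h0, H.base]) (by
    intro x y
    rw [H.isom]
    exact hf.dist_le_mul x y)
  exact ⟨T, hT, fun S hS => H.ext fun x => by rw [hT, hS]⟩

end Pool.Agent.Results.MP_e86906_an.SpectrumFormula
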